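import Pool.Agent.Helper49.PA.GoalsA

/-! # Amalgamation over two points (packet AM2) -/

namespace PA49.PkAM2

open Classical

/-- the similarity of two points of the different parts -/
noncomputable def mid {L : Type} [Lattice L] [BoundedOrder L] {W Y : Type} (s : Sim L W)
    (t : Sim L Y) (p q : W) (a b : Y) (w : W) (z : Y) : L :=
  if s.k w q ≤ s.k p q then s.k w p ⊓ t.k a z else s.k w q ⊓ t.k b z

/-- the similarity on the disjoint union -/
noncomputable def un {L : Type} [Lattice L] [BoundedOrder L] {W Y : Type} (s : Sim L W)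
    (t : Sim L Y) (p q : W) (a b : Y) : W ⊕ Y → W ⊕ Y → L
  | .inl w, .inl w' => s.k w w'
  | .inr z, .inr z' => t.k z z'
  | .inl w, .inr z => mid s t p q a b w z
  | .inr z, .inl w => mid s t p q a b w z

theorem am2 (h : G_SEP) : G_AM2 := by
  intro L _ _ W Y _ _ s t p q a b hpq hnear
  have S1 : ∀ X : L, ∀ x y z, X ≤ s.k x y → X ≤ s.k y z → X ≤ s.k x z := fun X x y z h1 h2 =>
    (le_inf h1 h2).trans (s.tri x y z)
  have S2 : ∀ X : L, ∀ x y z, X ≤ t.k x y → X ≤ t.k y z → X ≤ t.k x z := fun X x y z h1 h2 =>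
    (le_inf h1 h2).trans (t.tri x y z)
  have S3 : ∀ X : L, ∀ x y, X ≤ s.k x y → X ≤ s.k y x := fun X x y h1 => by rwa [s.symm]
  have S4 : ∀ X : L, ∀ x y, X ≤ t.k x y → X ≤ t.k y x := fun X x y h1 => by rwa [t.symm]
  -- T1
  have T1 : ∀ w w' z, s.k w w' ⊓ mid s t p q a b w' z ≤ mid s t p q a b w z := by
    intro w w' z
    unfold mid
    by_cases h1 : s.k w q ≤ s.k p q
    · by_cases h2 : s.k w' q ≤ s.k p q
      · rw [if_pos h1, if_pos h2]
        refine le_inf (S1 _ w w' p inf_le_left ?_) ?_
        · exact inf_le_right.trans inf_le_left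
        · exact inf_le_right.trans inf_le_right
      · rw [if_pos h1, if_neg h2]
        have k1 : s.k w w' ⊓ (s.k w' q ⊓ t.k b z) ≤ s.k w q :=
          S1 _ w w' q inf_le_left (inf_le_right.trans inf_le_left)
        have k2 : s.k w w' ⊓ (s.k w' q ⊓ t.k b z) ≤ s.k p q := k1.trans h1
        refine le_inf (S1 _ w q p k1 (S3 _ _ _ k2)) ?_
        exact S2 _ a b z (k2.trans hpq.le) (inf_le_right.trans inf_le_right)
    · by_cases h2 : s.k w' q ≤ s.k p q
      · rw [if_neg h1, if_pos h2]
        have h3 : s.k w p ≤ s.k p q := (hnear w).resolve_right h1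
        have k1 : s.k w w' ⊓ (s.k w' p ⊓ t.k a z) ≤ s.k w p :=
          S1 _ w w' p inf_le_left (inf_le_right.trans inf_le_left)
        have k2 : s.k w w' ⊓ (s.k w' p ⊓ t.k a z) ≤ s.k p q := k1.trans h3
        refine le_inf (S1 _ w p q k1 k2) ?_
        exact S2 _ b a z (S4 _ _ _ (k2.trans hpq.le)) (inf_le_right.trans inf_le_right)
      · rw [if_neg h1, if_neg h2]
        refine le_inf (S1 _ w w' q inf_le_left ?_) ?_
        · exact inf_le_right.trans inf_le_left
        · exact inf_le_right.trans inf_le_right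
  have T2 : ∀ w w' z, mid s t p q a b w z ⊓ mid s t p q a b w' z ≤ s.k w w' := by
    intro w w' z
    unfold mid
    by_cases h1 : s.k w q ≤ s.k p q
    · by_cases h2 : s.k w' q ≤ s.k p q
      · rw [if_pos h1, if_pos h2]
        exact S1 _ w p w' (inf_le_left.trans inf_le_left)
          (S3 _ _ _ (inf_le_right.trans inf_le_left))
      · rw [if_pos h1, if_neg h2]
        have k1 : s.k w p ⊓ t.k a z ⊓ (s.k w' q ⊓ t.k b z) ≤ s.k p q := by
          rw [hpq]
          exact S2 _ a z b (inf_le_left.trans inf_le_right)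
            (S4 _ _ _ (inf_le_right.trans inf_le_right))
        exact S1 _ w q w' (S1 _ w p q (inf_le_left.trans inf_le_left) k1)
          (S3 _ _ _ (inf_le_right.trans inf_le_left))
    · by_cases h2 : s.k w' q ≤ s.k p q
      · rw [if_neg h1, if_pos h2]
        have k1 : s.k w q ⊓ t.k b z ⊓ (s.k w' p ⊓ t.k a z) ≤ s.k p q := by
          rw [hpq]
          exact S2 _ a z b (inf_le_right.trans inf_le_right)
            (S4 _ _ _ (inf_le_left.trans inf_le_right))
        exact S1 _ w p w' (S1 _ w q p (inf_le_left.trans inf_le_left) (S3 _ _ _ k1))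
          (S3 _ _ _ (inf_le_right.trans inf_le_left))
      · rw [if_neg h1, if_neg h2]
        exact S1 _ w q w' (inf_le_left.trans inf_le_left)
          (S3 _ _ _ (inf_le_right.trans inf_le_left))
  have T3 : ∀ w z z', mid s t p q a b w z ⊓ t.k z z' ≤ mid s t p q a b w z' := by
    intro w z z'
    unfold mid
    by_cases h1 : s.k w q ≤ s.k p q
    · rw [if_pos h1, if_pos h1]
      exact le_inf (inf_le_left.trans inf_le_left)
        (S2 _ a z z' (inf_le_left.trans inf_le_right) inf_le_right)
    · rw [if_neg h1, if_neg h1]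
      exact le_inf (inf_le_left.trans inf_le_left)
        (S2 _ b z z' (inf_le_left.trans inf_le_right) inf_le_right)
  have T4 : ∀ w z z', mid s t p q a b w z ⊓ mid s t p q a b w z' ≤ t.k z z' := by
    intro w z z'
    unfold mid
    by_cases h1 : s.k w q ≤ s.k p q
    · rw [if_pos h1, if_pos h1]
      exact S2 _ z a z' (S4 _ _ _ (inf_le_left.trans inf_le_right))
        (inf_le_right.trans inf_le_right)
    · rw [if_neg h1, if_neg h1]
      exact S2 _ z b z' (S4 _ _ _ (inf_le_left.trans inf_le_right))
        (inf_le_right.trans inf_le_right)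
  let K : PSim L (W ⊕ Y) :=
    { k := un s t p q a b
      refl := by
        rintro (w | z)
        · exact s.refl w
        · exact t.refl z
      symm := by
        rintro (w | z) (w' | z')
        · exact s.symm _ _
        · rfl
        · rfl
        · exact t.symm _ _
      tri := by
        rintro (w | z) (w' | z') (w'' | z'')
        · exact s.tri _ _ _
        · exact T1 _ _ _
        · exact T2 _ _ _
        · exact T3 _ _ _
        · show mid s t p q a b w' z ⊓ s.k w' w'' ≤ mid s t p q a b w'' z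
          rw [inf_comm, s.symm]
          exact T1 _ _ _
        · exact T4 _ _ _
        · show t.k z z' ⊓ mid s t p q a b w'' z' ≤ mid s t p q a b w'' z
          rw [inf_comm, t.symm]
          exact T3 _ _ _
        · exact t.tri _ _ _ }
  obtain ⟨V, hV, v, f, _, hf⟩ := h L (W ⊕ Y) K
  refine ⟨V, hV, v, fun w => f (.inl w), fun z => f (.inr z), fun x y => hf _ _,
    fun x y => hf _ _, ?_, ?_⟩
  · apply v.sep
    show v.k (f (.inl p)) (f (.inr a)) = ⊤
    rw [hf]
    show mid s t p q a b p a = ⊤
    unfold mid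
    rw [if_pos le_rfl, s.refl, t.refl, inf_idem]
  · apply v.sep
    show v.k (f (.inl q)) (f (.inr b)) = ⊤
    rw [hf]
    show mid s t p q a b q b = ⊤
    unfold mid
    by_cases h1 : s.k q q ≤ s.k p q
    · rw [if_pos h1]
      rw [s.refl] at h1
      have h2 : s.k p q = ⊤ := top_le_iff.1 h1
      rw [s.symm, ← hpq, h2, inf_idem]
    · rw [if_neg h1, s.refl, t.refl, inf_idem]

end PA49.PkAM2
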